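import Pool.Agent.Work.MP_0cd883_co.Lev.Lev1

/-! # Exact level inequality in the discrete cube

`li`: if `κ ≤ g1 x + g2 y + g3 z` whenever `x + y + z = (M, .., M)` with `x, y, z` in the levels
`j1, j2, j3` of `{0..M}^n`, `j1 + j2 + j3 = n M`, then the same holds for the averages. -/

namespace Pool.Agent.Work.MP_0cd883_co.Lev

open Finset

section Avg

variable {Ω T : Type*} [Fintype Ω] [DecidableEq T]

/-- average over the fibres of `π` -/
noncomputable def Rs (π : Ω → T) (g : Ω → ℝ) (x : Ω) : ℝ :=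
  (∑ y ∈ univ.filter (fun y => π y = π x), g y) / ((univ.filter (fun y => π y = π x)).card : ℝ)

theorem Rs_inv (π : Ω → T) (g : Ω → ℝ) {x y : Ω} (h : π x = π y) : Rs π g x = Rs π g y := by
  unfold Rs
  rw [h]

theorem card_fib_pos (π : Ω → T) (x : Ω) :
    (0 : ℝ) < ((univ.filter (fun y => π y = π x)).card : ℝ) := by
  have : 0 < (univ.filter (fun y => π y = π x)).card :=
    card_pos.2 ⟨x, mem_filter.2 ⟨mem_univ _, rfl⟩⟩
  exact_mod_cast this

theorem Rs_const (π : Ω → T) (g : Ω → ℝ) (h : ∀ x y, π x = π y → g x = g y) : Rs π g = g := by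
  funext x
  unfold Rs
  rw [sum_congr rfl (fun y hy => h y x (mem_filter.1 hy).2), sum_const, nsmul_eq_mul,
    mul_div_assoc, mul_comm, div_mul_cancel₀ _ (card_fib_pos π x).ne']

theorem Rs_Rs (π : Ω → T) (g : Ω → ℝ) : Rs π (Rs π g) = Rs π g :=
  Rs_const π _ fun _ _ h => Rs_inv π g h

theorem Rs_symm (π : Ω → T) (g h : Ω → ℝ) : ∑ x, Rs π g x * h x = ∑ x, g x * Rs π h x := by
  have e1 : ∑ x, Rs π g x * h x
      = ∑ x, ∑ y, if π y = π x then g y * h x / ((univ.filter (fun y => π y = π x)).card : ℝ)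
        else 0 := by
    refine sum_congr rfl fun x _ => ?_
    unfold Rs
    rw [← sum_filter, sum_div, sum_mul]
    exact sum_congr rfl fun y _ => by ring
  have e2 : ∑ x, g x * Rs π h x
      = ∑ y, ∑ x, if π y = π x then g y * h x / ((univ.filter (fun y => π y = π x)).card : ℝ)
        else 0 := by
    refine sum_congr rfl fun y _ => ?_
    unfold Rs
    rw [← sum_filter, sum_div, mul_sum]
    have e3 : (univ.filter (fun x => π y = π x)) = univ.filter (fun x => π x = π y) := by
      ext x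
      simp [eq_comm]
    rw [e3]
    refine sum_congr rfl fun x hx => ?_
    rw [(mem_filter.1 hx).2]
    ring
  rw [e1, e2, sum_comm]

theorem Rs_sq (π : Ω → T) (g : Ω → ℝ) :
    ∑ x, (g x - Rs π g x) ^ 2 = ∑ x, g x ^ 2 - ∑ x, Rs π g x ^ 2 := by
  have h1 : ∑ x, g x * Rs π g x = ∑ x, Rs π g x ^ 2 := by
    have := Rs_symm π g (Rs π g)
    rw [Rs_Rs] at this
    rw [← this]
    exact sum_congr rfl fun x _ => by ring
  have h2 : ∑ x, (g x - Rs π g x) ^ 2
      = ∑ x, g x ^ 2 - 2 * ∑ x, g x * Rs π g x + ∑ x, Rs π g x ^ 2 := by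
    rw [mul_sum, ← sum_sub_distrib, ← sum_add_distrib]
    exact sum_congr rfl fun x _ => by ring
  rw [h2, h1]
  ring

end Avg

/-- a level of the discrete cube -/
def lev (n M j : ℕ) : Finset (Fin n → Fin (M + 1)) := univ.filter (fun x => ∑ i, (x i : ℕ) = j)

theorem mem_lev {n M j : ℕ} {x : Fin n → Fin (M + 1)} : x ∈ lev n M j ↔ ∑ i, (x i : ℕ) = j := by
  simp [lev]

/-- the invariant of the resampling of the coordinates `a` and `b` -/
def pr {n M : ℕ} (a b : Fin n) (x : Fin n → Fin (M + 1)) : (Fin n → ℕ) × ℕ :=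
  (fun c => if c = a ∨ c = b then 0 else (x c : ℕ), (x a : ℕ) + x b)

theorem pr_sum {n M : ℕ} {a b : Fin n} (hab : a ≠ b) (x : Fin n → Fin (M + 1)) :
    ∑ i, (x i : ℕ) = (pr a b x).2 + ∑ i, (pr a b x).1 i := by
  unfold pr
  have h : ∀ i, (x i : ℕ) = (if i = a then (x a : ℕ) else 0) + (if i = b then (x b : ℕ) else 0)
      + (if i = a ∨ i = b then 0 else (x i : ℕ)) := by
    intro i
    by_cases h1 : i = a
    · subst h1
      simp [hab]
    · by_cases h2 : i = b
      · subst h2
        simp [h1]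
      · simp [h1, h2]
  rw [sum_congr rfl (fun i _ => h i), sum_add_distrib, sum_add_distrib]
  simp

theorem pr_mem {n M j : ℕ} {a b : Fin n} (hab : a ≠ b) {x y : Fin n → Fin (M + 1)}
    (h : pr a b x = pr a b y) : x ∈ lev n M j ↔ y ∈ lev n M j := by
  rw [mem_lev, mem_lev, pr_sum hab, pr_sum hab, h]

/-- change of the coordinates `a`, `b` keeping their sum -/
def upd {n M : ℕ} (x : Fin n → Fin (M + 1)) (a b : Fin n) (t : ℕ) : Fin n → Fin (M + 1) :=
  fun c => if c = a then Fin.ofNat (M + 1) t else if c = b then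
    Fin.ofNat (M + 1) ((x a : ℕ) + x b - t) else x c

theorem upd_a {n M : ℕ} (x : Fin n → Fin (M + 1)) (a b : Fin n) {t : ℕ} (ht : t ≤ M) :
    (upd x a b t a : ℕ) = t := by
  unfold upd
  rw [if_pos rfl]
  exact Nat.mod_eq_of_lt (by omega)

theorem upd_b {n M : ℕ} (x : Fin n → Fin (M + 1)) {a b : Fin n} (hab : a ≠ b) {t : ℕ}
    (ht : (x a : ℕ) + x b - t ≤ M) :
    (upd x a b t b : ℕ) = (x a : ℕ) + x b - t := by
  unfold upd
  rw [if_neg hab.symm, if_pos rfl]
  exact Nat.mod_eq_of_lt (by omega)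

theorem upd_c {n M : ℕ} (x : Fin n → Fin (M + 1)) {a b c : Fin n} (ha : c ≠ a) (hb : c ≠ b)
    (t : ℕ) : upd x a b t c = x c := by
  unfold upd
  rw [if_neg ha, if_neg hb]

theorem pr_upd {n M : ℕ} (x : Fin n → Fin (M + 1)) {a b : Fin n} (hab : a ≠ b) {t : ℕ}
    (ht : t ∈ Icc ((x a : ℕ) + x b - M) (min ((x a : ℕ) + x b) M)) :
    pr a b (upd x a b t) = pr a b x := by
  rw [mem_Icc] at ht
  unfold pr
  rw [upd_a x a b (by omega), upd_b x hab (by omega)]
  refine Prod.ext ?_ ?_
  · funext c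
    show (if c = a ∨ c = b then 0 else (upd x a b t c : ℕ)) = if c = a ∨ c = b then 0 else (x c : ℕ)
    by_cases h : c = a ∨ c = b
    · rw [if_pos h, if_pos h]
    · rw [if_neg h, if_neg h]
      push Not at h
      rw [upd_c x h.1 h.2]
  · show t + ((x a : ℕ) + x b - t) = (x a : ℕ) + x b
    omega

theorem Rs_pr {n M : ℕ} {a b : Fin n} (hab : a ≠ b) (g : (Fin n → Fin (M + 1)) → ℝ)
    (x : Fin n → Fin (M + 1)) :
    Rs (pr a b) g x = avg2 M ((x a : ℕ) + x b) (fun t => g (upd x a b t)) := by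
  have h1 : univ.filter (fun y => pr a b y = pr a b x)
      = (Icc ((x a : ℕ) + x b - M) (min ((x a : ℕ) + x b) M)).image (fun t => upd x a b t) := by
    ext y
    rw [mem_filter, mem_image]
    constructor
    · rintro ⟨-, hy⟩
      have h2 : (y a : ℕ) + y b = (x a : ℕ) + x b := congrArg Prod.snd hy
      have h3 : ∀ c, c ≠ a → c ≠ b → (y c : ℕ) = x c := by
        intro c ha hb
        have := congrFun (congrArg Prod.fst hy) c
        have h4 : ¬ (c = a ∨ c = b) := by
          push Not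
          exact ⟨ha, hb⟩
        simp only [pr] at this
        rw [if_neg h4, if_neg h4] at this
        exact this
      have hya := (y a).2
      have hyb := (y b).2
      refine ⟨(y a : ℕ), ?_, ?_⟩
      · rw [mem_Icc]
        omega
      · funext c
        apply Fin.ext
        by_cases hca : c = a
        · subst hca
          exact upd_a x c b (by omega)
        · by_cases hcb : c = b
          · subst hcb
            rw [upd_b x hab (by omega)]
            omega
          · rw [upd_c x hca hcb, h3 c hca hcb]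
    · rintro ⟨t, ht, rfl⟩
      exact ⟨mem_univ _, pr_upd x hab ht⟩
  have h2 : Set.InjOn (fun t => upd x a b t)
      (Icc ((x a : ℕ) + x b - M) (min ((x a : ℕ) + x b) M) : Finset ℕ) := by
    intro t ht t' ht' htt
    rw [mem_coe, mem_Icc] at ht ht'
    have h3 : (upd x a b t a : ℕ) = (upd x a b t' a : ℕ) := by
      have := congrFun htt a
      simp only at this
      rw [this]
    rw [upd_a x a b (by omega), upd_a x a b (by omega)] at h3
    exact h3
  unfold Rs avg2
  rw [h1, sum_image h2, card_image_of_injOn h2]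

/-- the relation on the triples of the three levels -/
def Rel (n M : ℕ) (j : Fin 3 → ℕ) (κ : ℝ) (g : Fin 3 → (Fin n → Fin (M + 1)) → ℝ) : Prop :=
  ∀ x : Fin 3 → Fin n → Fin (M + 1), (∀ k, x k ∈ lev n M (j k)) →
    (∀ i, ∑ k, (x k i : ℕ) = M) → κ ≤ ∑ k, g k (x k)

theorem Rel.resample {n M : ℕ} {j : Fin 3 → ℕ} {κ : ℝ} {g : Fin 3 → (Fin n → Fin (M + 1)) → ℝ}
    (h : Rel n M j κ g) {a b : Fin n} (hab : a ≠ b) :
    Rel n M j κ (fun k => Rs (pr a b) (g k)) := by
  intro x hx hs
  have h1 : ∑ k, Rs (pr a b) (g k) (x k) = ∑ k, avg2 M ((x k a : ℕ) + x k b)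
      (fun t => g k (upd (x k) a b t)) := sum_congr rfl fun k _ => Rs_pr hab (g k) (x k)
  show κ ≤ ∑ k, Rs (pr a b) (g k) (x k)
  rw [h1, Fin.sum_univ_three]
  have ha := hs a
  have hb := hs b
  rw [Fin.sum_univ_three] at ha hb
  refine li2 (by omega) _ _ _ κ fun t0 t1 t2 h0 h1 h2 ht => ?_
  have h3 := h ![upd (x 0) a b t0, upd (x 1) a b t1, upd (x 2) a b t2] ?_ ?_
  · rw [Fin.sum_univ_three] at h3
    exact h3
  · intro k
    fin_cases k
    · exact (pr_mem hab (pr_upd (x 0) hab h0)).2 (hx 0)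
    · exact (pr_mem hab (pr_upd (x 1) hab h1)).2 (hx 1)
    · exact (pr_mem hab (pr_upd (x 2) hab h2)).2 (hx 2)
  · intro i
    rw [Fin.sum_univ_three]
    show (upd (x 0) a b t0 i : ℕ) + (upd (x 1) a b t1 i : ℕ) + (upd (x 2) a b t2 i : ℕ) = M
    rw [mem_Icc] at h0 h1 h2
    by_cases hia : i = a
    · subst hia
      rw [upd_a _ _ _ (by omega), upd_a _ _ _ (by omega), upd_a _ _ _ (by omega), ht]
    · by_cases hib : i = b
      · subst hib
        rw [upd_b _ hab (by omega), upd_b _ hab (by omega), upd_b _ hab (by omega)]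
        omega
      · rw [upd_c _ hia hib, upd_c _ hia hib, upd_c _ hia hib]
        have := hs i
        rw [Fin.sum_univ_three] at this
        exact this

/-- functions invariant under all resamplings are constant on levels -/
theorem const_of_inv {n M j : ℕ} (g : (Fin n → Fin (M + 1)) → ℝ)
    (hg : ∀ a b : Fin n, a ≠ b → ∀ x y, pr a b x = pr a b y → g x = g y) :
    ∀ x ∈ lev n M j, ∀ y ∈ lev n M j, g x = g y := by
  have key : ∀ D : ℕ, ∀ x ∈ lev n M j, ∀ y ∈ lev n M j, ∑ i, Nat.dist (x i) (y i) = D →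
      g x = g y := by
    intro D
    induction D using Nat.strong_induction_on with
    | _ D ih =>
        intro x hx y hy hD
        by_cases hxy : x = y
        · rw [hxy]
        rw [mem_lev] at hx hy
        have h1 : ∃ a, (x a : ℕ) < y a := by
          by_contra hc
          push Not at hc
          apply hxy
          funext i
          apply Fin.ext
          by_contra hne
          have : ∑ i, (y i : ℕ) < ∑ i, (x i : ℕ) :=
            sum_lt_sum (fun i _ => hc i) ⟨i, mem_univ _, lt_of_le_of_ne (hc i) (Ne.symm hne)⟩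
          omega
        have h2 : ∃ b, (y b : ℕ) < x b := by
          by_contra hc
          push Not at hc
          apply hxy
          funext i
          apply Fin.ext
          by_contra hne
          have : ∑ i, (x i : ℕ) < ∑ i, (y i : ℕ) :=
            sum_lt_sum (fun i _ => hc i) ⟨i, mem_univ _, lt_of_le_of_ne (hc i) hne⟩
          omega
        obtain ⟨a, ha⟩ := h1
        obtain ⟨b, hb⟩ := h2
        have hab : a ≠ b := by
          rintro rfl
          omega
        have hya := (y a).2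
        have hxb := (x b).2
        have hta : (x a : ℕ) + 1 ∈ Icc ((x a : ℕ) + x b - M) (min ((x a : ℕ) + x b) M) := by
          rw [mem_Icc]
          omega
        have hpr := pr_upd x hab hta
        have h3 : g x = g (upd x a b ((x a : ℕ) + 1)) := hg a b hab _ _ hpr.symm
        have ea : (upd x a b ((x a : ℕ) + 1) a : ℕ) = (x a : ℕ) + 1 := upd_a x a b (by omega)
        have eb : (upd x a b ((x a : ℕ) + 1) b : ℕ) = (x a : ℕ) + x b - ((x a : ℕ) + 1) :=
          upd_b x hab (by omega)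
        rw [h3]
        refine ih _ ?_ _ ((pr_mem hab hpr).2 (mem_lev.2 hx)) y (mem_lev.2 hy) rfl
        rw [← hD]
        refine sum_lt_sum (fun i _ => ?_) ⟨a, mem_univ _, ?_⟩
        · by_cases hia : i = a
          · rw [hia, ea]
            unfold Nat.dist
            omega
          · by_cases hib : i = b
            · rw [hib, eb]
              unfold Nat.dist
              omega
            · rw [upd_c x hia hib]
        · rw [ea]
          unfold Nat.dist
          omega
  intro x hx y hy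
  exact key _ x hx y hy rfl

/-- there is a triple of the three levels with constant sum -/
theorem exists_triple {n M : ℕ} {j : Fin 3 → ℕ} (hj : ∑ k, j k = n * M) :
    ∃ x : Fin 3 → Fin n → Fin (M + 1), (∀ k, x k ∈ lev n M (j k)) ∧
      (∀ i, ∑ k, (x k i : ℕ) = M) := by
  rw [Fin.sum_univ_three] at hj
  have hle : ∀ s i : ℕ, min s ((i + 1) * M) - min s (i * M) ≤ M := by
    intro s i
    have : (i + 1) * M = i * M + M := by ring
    rw [this]
    omega
  have hmono : ∀ s : ℕ, Monotone (fun i : ℕ => min s (i * M)) := by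
    intro s i k hik
    have : i * M ≤ k * M := Nat.mul_le_mul_right _ hik
    show min s (i * M) ≤ min s (k * M)
    omega
  have hsum : ∀ s : ℕ, s ≤ n * M →
      ∑ i : Fin n, (min s (((i : ℕ) + 1) * M) - min s ((i : ℕ) * M)) = s := by
    intro s hs
    rw [Fin.sum_univ_eq_sum_range (fun i => min s ((i + 1) * M) - min s (i * M)) n]
    have := sum_range_tsub (hmono s) n
    simp only [zero_mul] at this
    rw [this]
    omega
  have hcmp : ∀ i : ℕ, min (j 0) ((i + 1) * M) - min (j 0) (i * M)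
      ≤ min (j 0 + j 1) ((i + 1) * M) - min (j 0 + j 1) (i * M) := by
    intro i
    have : (i + 1) * M = i * M + M := by ring
    rw [this]
    omega
  have h0 := hsum (j 0) (by omega)
  have h1 := hsum (j 0 + j 1) (by omega)
  have e0 : ∀ i : Fin n, min (j 0) (((i : ℕ) + 1) * M) - min (j 0) ((i : ℕ) * M) < M + 1 :=
    fun i => by
      have := hle (j 0) i
      omega
  have e1 : ∀ i : Fin n, (min (j 0 + j 1) (((i : ℕ) + 1) * M) - min (j 0 + j 1) ((i : ℕ) * M))
      - (min (j 0) (((i : ℕ) + 1) * M) - min (j 0) ((i : ℕ) * M)) < M + 1 := fun i => by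
    have := hle (j 0 + j 1) i
    omega
  have e2 : ∀ i : Fin n, M - (min (j 0 + j 1) (((i : ℕ) + 1) * M)
      - min (j 0 + j 1) ((i : ℕ) * M)) < M + 1 := fun i => by omega
  refine ⟨![fun i => ⟨_, e0 i⟩, fun i => ⟨_, e1 i⟩, fun i => ⟨_, e2 i⟩], ?_, ?_⟩
  · intro k
    fin_cases k
    · rw [mem_lev]
      exact h0
    · rw [mem_lev]
      show ∑ i : Fin n, ((min (j 0 + j 1) (((i : ℕ) + 1) * M) - min (j 0 + j 1) ((i : ℕ) * M))
        - (min (j 0) (((i : ℕ) + 1) * M) - min (j 0) ((i : ℕ) * M))) = j 1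
      rw [sum_tsub_distrib _ (fun (i : Fin n) _ => hcmp (i : ℕ)), h0, h1]
      omega
    · rw [mem_lev]
      show ∑ i : Fin n, (M - (min (j 0 + j 1) (((i : ℕ) + 1) * M)
        - min (j 0 + j 1) ((i : ℕ) * M))) = j 2
      rw [sum_tsub_distrib _ (fun (i : Fin n) _ => hle (j 0 + j 1) (i : ℕ)), h1, sum_const, card_univ,
        Fintype.card_fin, smul_eq_mul]
      omega
  · intro i
    rw [Fin.sum_univ_three]
    show (min (j 0) (((i : ℕ) + 1) * M) - min (j 0) ((i : ℕ) * M))
      + ((min (j 0 + j 1) (((i : ℕ) + 1) * M) - min (j 0 + j 1) ((i : ℕ) * M))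
        - (min (j 0) (((i : ℕ) + 1) * M) - min (j 0) ((i : ℕ) * M)))
      + (M - (min (j 0 + j 1) (((i : ℕ) + 1) * M) - min (j 0 + j 1) ((i : ℕ) * M))) = M
    have h2 := hcmp i
    have h3 := hle (j 0 + j 1) i
    omega

/-- **Exact level inequality.** -/
theorem li {n M : ℕ} {j : Fin 3 → ℕ} (hj : ∑ k, j k = n * M) {κ : ℝ}
    {g : Fin 3 → (Fin n → Fin (M + 1)) → ℝ} (h : Rel n M j κ g) :
    κ ≤ ∑ k, (∑ x ∈ lev n M (j k), g k x) / ((lev n M (j k)).card : ℝ) := by
  classical
  -- the constraint set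
  set g0 : Fin 3 → (Fin n → Fin (M + 1)) → ℝ :=
    fun k x => if x ∈ lev n M (j k) then g k x else 0 with hg0
  set c : Fin 3 → ℝ := fun k => ∑ x ∈ lev n M (j k), g k x with hc
  set Φ : (Fin 3 → (Fin n → Fin (M + 1)) → ℝ) → ℝ := fun f => ∑ k, ∑ x, f k x ^ 2 with hΦ
  set K : Set (Fin 3 → (Fin n → Fin (M + 1)) → ℝ) :=
    {f | Rel n M j κ f ∧ (∀ k, ∑ x ∈ lev n M (j k), f k x = c k)} with hK
  have hg0K : g0 ∈ K := by
    refine ⟨fun x hx hs => ?_, fun k => ?_⟩
    · have : ∑ k, g0 k (x k) = ∑ k, g k (x k) := sum_congr rfl fun k _ => if_pos (hx k)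
      rw [this]
      exact h x hx hs
    · exact sum_congr rfl fun x hx => if_pos hx
  have hclosed : IsClosed K := by
    have e1 : IsClosed {f : Fin 3 → (Fin n → Fin (M + 1)) → ℝ | Rel n M j κ f} := by
      simp only [Rel, Set.ofPred_forall]
      exact isClosed_iInter fun x => isClosed_iInter fun _ => isClosed_iInter fun _ =>
        isClosed_le continuous_const (by fun_prop)
    have e2 : IsClosed {f : Fin 3 → (Fin n → Fin (M + 1)) → ℝ |
        ∀ k, ∑ x ∈ lev n M (j k), f k x = c k} := by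
      simp only [Set.ofPred_forall]
      exact isClosed_iInter fun k => isClosed_eq (by fun_prop) continuous_const
    exact e1.inter e2
  have hΦc : Continuous Φ := by
    rw [hΦ]
    fun_prop
  have hbound : ∀ f : Fin 3 → (Fin n → Fin (M + 1)) → ℝ, Φ f ≤ Φ g0 →
      f ∈ Metric.closedBall (0 : Fin 3 → (Fin n → Fin (M + 1)) → ℝ) (Φ g0 + 1) := by
    intro f hf
    have h0 : 0 ≤ Φ g0 := sum_nonneg fun k _ => sum_nonneg fun x _ => sq_nonneg _
    rw [mem_closedBall_zero_iff, pi_norm_le_iff_of_nonneg (by linarith)]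
    intro k
    rw [pi_norm_le_iff_of_nonneg (by linarith)]
    intro x
    have h1 : f k x ^ 2 ≤ Φ f :=
      (single_le_sum (f := fun x => f k x ^ 2) (fun x _ => sq_nonneg _) (mem_univ x)).trans
        (single_le_sum (f := fun k => ∑ x, f k x ^ 2)
          (fun k _ => sum_nonneg fun x _ => sq_nonneg _) (mem_univ k))
    rw [Real.norm_eq_abs]
    have h2 : |f k x| ≤ f k x ^ 2 + 1 := by
      rw [← sq_abs]
      nlinarith [sq_nonneg (|f k x| - 1), abs_nonneg (f k x)]
    linarith
  have hcomp : IsCompact (K ∩ Metric.closedBall 0 (Φ g0 + 1)) :=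
    (isCompact_closedBall _ _).inter_left hclosed
  obtain ⟨f, ⟨hfK, hfB⟩, hfmin⟩ := hcomp.exists_isMinOn ⟨g0, hg0K, hbound g0 le_rfl⟩
    hΦc.continuousOn
  have hfg : Φ f ≤ Φ g0 := hfmin ⟨hg0K, hbound g0 le_rfl⟩
  -- the minimiser is invariant
  have hinv : ∀ a b : Fin n, a ≠ b → ∀ k, ∀ x, f k x = Rs (pr a b) (f k) x := by
    intro a b hab
    have h1 : (fun k => Rs (pr a b) (f k)) ∈ K := by
      refine ⟨hfK.1.resample hab, fun k => ?_⟩
      have h2 := Rs_symm (pr a b) (f k)
        (fun x => if x ∈ lev n M (j k) then (1 : ℝ) else 0)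
      rw [Rs_const (pr a b) (fun x => if x ∈ lev n M (j k) then (1 : ℝ) else 0)
        (fun x y hxy => by simp only [pr_mem hab hxy])] at h2
      simp only [mul_ite, mul_one, mul_zero, ← sum_filter, filter_mem_eq_inter, univ_inter] at h2
      rw [← hfK.2 k]
      exact h2
    have h3 : Φ f - Φ (fun k => Rs (pr a b) (f k))
        = ∑ k, ∑ x, (f k x - Rs (pr a b) (f k) x) ^ 2 := by
      rw [hΦ]
      simp only
      rw [← sum_sub_distrib]
      exact sum_congr rfl fun k _ => (Rs_sq (pr a b) (f k)).symm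
    have h4 : 0 ≤ ∑ k, ∑ x, (f k x - Rs (pr a b) (f k) x) ^ 2 :=
      sum_nonneg fun k _ => sum_nonneg fun x _ => sq_nonneg _
    have h5 : Φ f ≤ Φ (fun k => Rs (pr a b) (f k)) :=
      hfmin ⟨h1, hbound _ (by linarith)⟩
    have h6 : ∑ k, ∑ x, (f k x - Rs (pr a b) (f k) x) ^ 2 = 0 := by linarith
    intro k x
    have h7 := (sum_eq_zero_iff_of_nonneg (fun k _ => sum_nonneg fun x _ => sq_nonneg _)).1 h6 k
      (mem_univ k)
    have h8 := (sum_eq_zero_iff_of_nonneg (fun x _ => sq_nonneg _)).1 h7 x (mem_univ x)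
    have h9 := pow_eq_zero_iff (two_ne_zero) |>.1 h8
    linarith
  have hconst : ∀ k, ∀ x ∈ lev n M (j k), ∀ y ∈ lev n M (j k), f k x = f k y := fun k =>
    const_of_inv (f k) fun a b hab x y hxy => by
      rw [hinv a b hab k x, hinv a b hab k y]
      exact Rs_inv _ _ hxy
  obtain ⟨x, hx, hs⟩ := exists_triple (M := M) hj
  have h10 := hfK.1 x hx hs
  have h11 : ∀ k, f k (x k) = (∑ y ∈ lev n M (j k), g k y) / ((lev n M (j k)).card : ℝ) := by
    intro k
    have h12 := hfK.2 k
    rw [sum_congr rfl (fun y hy => hconst k y hy (x k) (hx k)), sum_const, nsmul_eq_mul] at h12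
    have h13 : (0 : ℝ) < ((lev n M (j k)).card : ℝ) := by
      exact_mod_cast card_pos.2 ⟨x k, hx k⟩
    rw [eq_div_iff h13.ne', mul_comm]
    exact h12
  rw [sum_congr rfl (fun k _ => h11 k)] at h10
  exact h10

end Pool.Agent.Work.MP_0cd883_co.Lev
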