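import Mathlib

/-! # Coupling of three discrete uniform laws with constant sum

Squares of the Wigner 3j symbols.  `Inv p q r m f` : `f` is an `SL2` invariant of
`V_p ⊗ V_q ⊗ V_r` written in the monomial basis. -/

namespace Pool.Agent.Work.MP_0cd883_co.Lev

open Finset

/-- `f` is the coefficient function of an invariant -/
structure Inv (p q r m : ℕ) (f : ℤ → ℤ → ℤ → ℚ) : Prop where
  supp : ∀ a b c, f a b c ≠ 0 → 0 ≤ a ∧ a ≤ p ∧ 0 ≤ b ∧ b ≤ q ∧ 0 ≤ c ∧ c ≤ r ∧ a + b + c = m
  up : ∀ a b c : ℤ, ((p : ℚ) - a + 1) * f (a - 1) b c + ((q : ℚ) - b + 1) * f a (b - 1) c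
    + ((r : ℚ) - c + 1) * f a b (c - 1) = 0
  down : ∀ a b c : ℤ, ((a : ℚ) + 1) * f (a + 1) b c + ((b : ℚ) + 1) * f a (b + 1) c
    + ((c : ℚ) + 1) * f a b (c + 1) = 0
  ne : ∃ a b c, f a b c ≠ 0

theorem inv_zero : Inv 0 0 0 0 (fun a b c => if a = 0 ∧ b = 0 ∧ c = 0 then 1 else 0) := by
  refine ⟨?_, ?_, ?_, ⟨0, 0, 0, by simp⟩⟩
  · intro a b c h
    have : a = 0 ∧ b = 0 ∧ c = 0 := by
      by_contra hc
      exact h (if_neg hc)
    obtain ⟨rfl, rfl, rfl⟩ := this
    simp
  · intro a b c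
    have h1 : ((0 : ℕ) - (a : ℚ) + 1) * (if a - 1 = 0 ∧ b = 0 ∧ c = 0 then (1 : ℚ) else 0) = 0 := by
      split_ifs with h
      · have : a = 1 := by omega
        subst this
        norm_num
      · ring
    have h2 : ((0 : ℕ) - (b : ℚ) + 1) * (if a = 0 ∧ b - 1 = 0 ∧ c = 0 then (1 : ℚ) else 0) = 0 := by
      split_ifs with h
      · have : b = 1 := by omega
        subst this
        norm_num
      · ring
    have h3 : ((0 : ℕ) - (c : ℚ) + 1) * (if a = 0 ∧ b = 0 ∧ c - 1 = 0 then (1 : ℚ) else 0) = 0 := by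
      split_ifs with h
      · have : c = 1 := by omega
        subst this
        norm_num
      · ring
    rw [h1, h2, h3]
    ring
  · intro a b c
    have h1 : ((a : ℚ) + 1) * (if a + 1 = 0 ∧ b = 0 ∧ c = 0 then (1 : ℚ) else 0) = 0 := by
      split_ifs with h
      · have : a = -1 := by omega
        subst this
        norm_num
      · ring
    have h2 : ((b : ℚ) + 1) * (if a = 0 ∧ b + 1 = 0 ∧ c = 0 then (1 : ℚ) else 0) = 0 := by
      split_ifs with h
      · have : b = -1 := by omega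
        subst this
        norm_num
      · ring
    have h3 : ((c : ℚ) + 1) * (if a = 0 ∧ b = 0 ∧ c + 1 = 0 then (1 : ℚ) else 0) = 0 := by
      split_ifs with h
      · have : c = -1 := by omega
        subst this
        norm_num
      · ring
    rw [h1, h2, h3]
    ring

theorem Inv.rot {p q r m : ℕ} {f : ℤ → ℤ → ℤ → ℚ} (h : Inv p q r m f) :
    Inv q r p m (fun b c a => f a b c) := by
  refine ⟨?_, ?_, ?_, ?_⟩
  · intro b c a hf
    obtain ⟨h1, h2, h3, h4, h5, h6, h7⟩ := h.supp a b c hf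
    exact ⟨h3, h4, h5, h6, h1, h2, by omega⟩
  · intro b c a
    have := h.up a b c
    linarith
  · intro b c a
    have := h.down a b c
    linarith
  · obtain ⟨a, b, c, hf⟩ := h.ne
    exact ⟨b, c, a, hf⟩

theorem Inv.step {p q r m : ℕ} {f : ℤ → ℤ → ℤ → ℚ} (h : Inv p q r m f) :
    Inv (p + 1) (q + 1) r (m + 1) (fun a b c => f (a - 1) b c - f a (b - 1) c) := by
  refine ⟨?_, ?_, ?_, ?_⟩
  · intro a b c hf
    have : f (a - 1) b c ≠ 0 ∨ f a (b - 1) c ≠ 0 := by
      by_contra hc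
      push Not at hc
      apply hf
      show f (a - 1) b c - f a (b - 1) c = 0
      rw [hc.1, hc.2, sub_zero]
    push_cast
    rcases this with h1 | h1
    · obtain ⟨h1, h2, h3, h4, h5, h6, h7⟩ := h.supp _ _ _ h1
      exact ⟨by omega, by omega, by omega, by omega, by omega, by omega, by omega⟩
    · obtain ⟨h1, h2, h3, h4, h5, h6, h7⟩ := h.supp _ _ _ h1
      exact ⟨by omega, by omega, by omega, by omega, by omega, by omega, by omega⟩
  · intro a b c
    have h1 := h.up (a - 1) b c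
    have h2 := h.up a (b - 1) c
    push_cast at h1 h2 ⊢
    linear_combination h1 - h2
  · intro a b c
    have h1 := h.down (a - 1) b c
    have h2 := h.down a (b - 1) c
    have e1 : a - 1 + 1 = a := by ring
    have e2 : b - 1 + 1 = b := by ring
    have e3 : a + 1 - 1 = a := by ring
    have e4 : b + 1 - 1 = b := by ring
    rw [e1] at h1
    rw [e2] at h2
    rw [e3, e4]
    push_cast at h1 h2 ⊢
    linear_combination h1 - h2
  · by_contra hc
    push Not at hc
    have hz : ∀ a b c, f a b c = f (a + 1) (b - 1) c := by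
      intro a b c
      have := hc (a + 1) b c
      have e : a + 1 - 1 = a := by ring
      rw [e] at this
      linarith
    obtain ⟨a, b, c, hf⟩ := h.ne
    have hz2 : ∀ k : ℕ, f a b c = f (a + k) (b - k) c := by
      intro k
      induction k with
      | zero => simp
      | succ k ih =>
          rw [ih, hz]
          congr 1 <;> push_cast <;> ring
    have h3 := hz2 (p + 1 + a.natAbs)
    have h4 : f (a + ((p + 1 + a.natAbs : ℕ) : ℤ)) (b - ((p + 1 + a.natAbs : ℕ) : ℤ)) c ≠ 0 := by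
      rw [← h3]
      exact hf
    have h5 := (h.supp _ _ _ h4).2.1
    omega

theorem exists_inv (α β γ : ℕ) : ∃ f, Inv (β + γ) (α + γ) (α + β) (α + β + γ) f := by
  have h1 : ∀ γ : ℕ, ∃ f, Inv γ γ 0 γ f := by
    intro γ
    induction γ with
    | zero => exact ⟨_, inv_zero⟩
    | succ γ ih =>
        obtain ⟨f, hf⟩ := ih
        exact ⟨_, hf.step⟩
  have h2 : ∀ α γ : ℕ, ∃ f, Inv γ (α + γ) α (α + γ) f := by
    intro α γ
    induction α with
    | zero =>
        obtain ⟨f, hf⟩ := h1 γ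
        exact ⟨f, by simpa using hf⟩
    | succ α ih =>
        obtain ⟨f, hf⟩ := ih
        have h3 := hf.rot.step.rot.rot
        have e1 : α + γ + 1 = α + 1 + γ := by ring
        rw [e1] at h3
        exact ⟨_, h3⟩
  induction β with
  | zero =>
      obtain ⟨f, hf⟩ := h2 α γ
      exact ⟨f, by simpa using hf⟩
  | succ β ih =>
      obtain ⟨f, hf⟩ := ih
      have h3 := hf.rot.rot.step.rot
      have e1 : β + γ + 1 = β + 1 + γ := by ring
      have e2 : α + β + 1 = α + (β + 1) := by ring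
      have e3 : α + β + γ + 1 = α + (β + 1) + γ := by ring
      rw [e3, e1, e2] at h3
      exact ⟨_, h3⟩

/-- summation by parts with binomial weights -/
theorem shift_sum (q : ℕ) (u v : ℤ → ℚ) (hu : u (q + 1) = 0) (hv : v (-1) = 0) :
    ∑ b ∈ range (q + 1), u b * (((q : ℚ) - b + 1) * v (b - 1)) / (q.choose b)
      = ∑ b ∈ range (q + 1), v b * (((b : ℚ) + 1) * u (b + 1)) / (q.choose b) := by
  rw [sum_range_succ', sum_range_succ (fun b : ℕ => v b * (((b : ℚ) + 1) * u (b + 1)) / (q.choose b))]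
  have e1 : u ((0 : ℕ) : ℤ) * (((q : ℚ) - ((0 : ℕ) : ℚ) + 1) * v (((0 : ℕ) : ℤ) - 1)) / (q.choose 0)
      = 0 := by
    have : (((0 : ℕ) : ℤ) - 1) = -1 := by norm_num
    rw [this, hv]
    ring
  have e2 : v (q : ℤ) * (((q : ℚ) + 1) * u ((q : ℤ) + 1)) / (q.choose q) = 0 := by
    rw [hu]
    ring
  rw [e1, e2, add_zero, add_zero]
  refine sum_congr rfl fun b hb => ?_
  have hbq : b < q := mem_range.1 hb
  have h1 : (q.choose (b + 1) : ℚ) * ((b : ℚ) + 1) = (q.choose b : ℚ) * ((q : ℚ) - b) := by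
    have := Nat.choose_succ_right_eq q b
    have h2 : ((q.choose (b + 1) * (b + 1) : ℕ) : ℚ) = ((q.choose b * (q - b) : ℕ) : ℚ) := by
      rw [this]
    rw [Nat.cast_mul, Nat.cast_mul, Nat.cast_sub hbq.le] at h2
    push_cast at h2
    exact h2
  have h3 : (q.choose b : ℚ) ≠ 0 := by
    exact_mod_cast (Nat.choose_pos hbq.le).ne'
  have h4 : (q.choose (b + 1) : ℚ) ≠ 0 := by
    exact_mod_cast (Nat.choose_pos hbq).ne'
  have e3 : (((b + 1 : ℕ) : ℤ) - 1) = (b : ℤ) := by push_cast; ring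
  have e4 : (((b + 1 : ℕ) : ℤ)) = (b : ℤ) + 1 := by push_cast; ring
  rw [e3, e4, div_eq_div_iff h4 h3]
  push_cast
  linear_combination (-(u ((b : ℤ) + 1) * v b)) * h1

/-- the marginal sums -/
def S (q r : ℕ) (f : ℤ → ℤ → ℤ → ℚ) (k : ℤ) : ℚ :=
  ∑ b ∈ range (q + 1), ∑ c ∈ range (r + 1), f k b c * f k b c / ((q.choose b) * (r.choose c))

theorem Inv.zero_of {p q r m : ℕ} {f : ℤ → ℤ → ℤ → ℚ} (h : Inv p q r m f) {a b c : ℤ}
    (hn : ¬ (0 ≤ a ∧ a ≤ p ∧ 0 ≤ b ∧ b ≤ q ∧ 0 ≤ c ∧ c ≤ r ∧ a + b + c = m)) : f a b c = 0 := by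
  by_contra hc
  exact hn (h.supp a b c hc)

theorem Inv.S_step {p q r m : ℕ} {f : ℤ → ℤ → ℤ → ℚ} (h : Inv p q r m f) (k : ℤ) :
    ((p : ℚ) - k) * S q r f k = ((k : ℚ) + 1) * S q r f (k + 1) := by
  have hb : ∀ c : ℤ, ∑ b ∈ range (q + 1), f k b c * (((q : ℚ) - b + 1) * f (k + 1) (b - 1) c)
        / (q.choose b)
      = ∑ b ∈ range (q + 1), f (k + 1) b c * (((b : ℚ) + 1) * f k (b + 1) c) / (q.choose b) :=
    fun c => shift_sum q (fun b => f k b c) (fun b => f (k + 1) b c)
      (h.zero_of (by omega)) (h.zero_of (by omega))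
  have hc : ∀ b : ℤ, ∑ c ∈ range (r + 1), f k b c * (((r : ℚ) - c + 1) * f (k + 1) b (c - 1))
        / (r.choose c)
      = ∑ c ∈ range (r + 1), f (k + 1) b c * (((c : ℚ) + 1) * f k b (c + 1)) / (r.choose c) :=
    fun b => shift_sum r (fun c => f k b c) (fun c => f (k + 1) b c)
      (h.zero_of (by omega)) (h.zero_of (by omega))
  have h1 : ((p : ℚ) - k) * S q r f k
      = - (∑ c ∈ range (r + 1), (∑ b ∈ range (q + 1), f k b c *
          (((q : ℚ) - b + 1) * f (k + 1) (b - 1) c) / (q.choose b)) / (r.choose c))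
        - (∑ b ∈ range (q + 1), (∑ c ∈ range (r + 1), f k b c *
          (((r : ℚ) - c + 1) * f (k + 1) b (c - 1)) / (r.choose c)) / (q.choose b)) := by
    unfold S
    simp_rw [sum_div]
    rw [sum_comm (s := range (r + 1)) (t := range (q + 1)), mul_sum, ← sum_neg_distrib,
      ← sum_sub_distrib]
    refine sum_congr rfl fun b _ => ?_
    rw [mul_sum, ← sum_neg_distrib, ← sum_sub_distrib]
    refine sum_congr rfl fun c _ => ?_
    have h2 := h.up (k + 1) b c
    have e : k + 1 - 1 = k := by ring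
    rw [e] at h2
    push_cast at h2
    have h3 : ((p : ℚ) - k) * f k b c = -(((q : ℚ) - b + 1) * f (k + 1) (b - 1) c)
        - ((r : ℚ) - c + 1) * f (k + 1) b (c - 1) := by linear_combination h2
    have h4 : ((p : ℚ) - k) * (f k b c * f k b c / ((q.choose b) * (r.choose c)))
        = f k b c * (((p : ℚ) - k) * f k b c) / ((q.choose b) * (r.choose c)) := by ring
    rw [h4, h3]
    field_simp
  have h5 : ((k : ℚ) + 1) * S q r f (k + 1)
      = - (∑ c ∈ range (r + 1), (∑ b ∈ range (q + 1), f (k + 1) b c *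
          (((b : ℚ) + 1) * f k (b + 1) c) / (q.choose b)) / (r.choose c))
        - (∑ b ∈ range (q + 1), (∑ c ∈ range (r + 1), f (k + 1) b c *
          (((c : ℚ) + 1) * f k b (c + 1)) / (r.choose c)) / (q.choose b)) := by
    unfold S
    simp_rw [sum_div]
    rw [sum_comm (s := range (r + 1)) (t := range (q + 1)), mul_sum, ← sum_neg_distrib,
      ← sum_sub_distrib]
    refine sum_congr rfl fun b _ => ?_
    rw [mul_sum, ← sum_neg_distrib, ← sum_sub_distrib]
    refine sum_congr rfl fun c _ => ?_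
    have h2 := h.down k b c
    have h3 : ((k : ℚ) + 1) * f (k + 1) b c = -(((b : ℚ) + 1) * f k (b + 1) c)
        - ((c : ℚ) + 1) * f k b (c + 1) := by
      push_cast at h2
      linear_combination h2
    have h4 : ((k : ℚ) + 1) * (f (k + 1) b c * f (k + 1) b c / ((q.choose b) * (r.choose c)))
        = f (k + 1) b c * (((k : ℚ) + 1) * f (k + 1) b c) / ((q.choose b) * (r.choose c)) := by
      ring
    rw [h4, h3]
    field_simp
  rw [h1, h5, sum_congr rfl (fun (c : ℕ) _ => by rw [hb c] :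
    ∀ c ∈ range (r + 1), (∑ b ∈ range (q + 1), f k b c *
          (((q : ℚ) - b + 1) * f (k + 1) (b - 1) c) / (q.choose b)) / (r.choose c)
      = (∑ b ∈ range (q + 1), f (k + 1) b c *
          (((b : ℚ) + 1) * f k (b + 1) c) / (q.choose b)) / (r.choose c)),
    sum_congr rfl (fun (b : ℕ) _ => by rw [hc b] :
    ∀ b ∈ range (q + 1), (∑ c ∈ range (r + 1), f k b c *
          (((r : ℚ) - c + 1) * f (k + 1) b (c - 1)) / (r.choose c)) / (q.choose b)
      = (∑ c ∈ range (r + 1), f (k + 1) b c *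
          (((c : ℚ) + 1) * f k b (c + 1)) / (r.choose c)) / (q.choose b))]

theorem Inv.S_eq {p q r m : ℕ} {f : ℤ → ℤ → ℤ → ℚ} (h : Inv p q r m f) {k : ℕ} (hk : k ≤ p) :
    S q r f k = (p.choose k) * S q r f 0 := by
  induction k with
  | zero => simp
  | succ k ih =>
      have h1 := h.S_step k
      rw [ih (by omega)] at h1
      have h2 : (p.choose (k + 1) : ℚ) * ((k : ℚ) + 1) = (p.choose k : ℚ) * ((p : ℚ) - k) := by
        have := Nat.choose_succ_right_eq p k
        have h2 : ((p.choose (k + 1) * (k + 1) : ℕ) : ℚ) = ((p.choose k * (p - k) : ℕ) : ℚ) := by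
          rw [this]
        rw [Nat.cast_mul, Nat.cast_mul, Nat.cast_sub (by omega)] at h2
        push_cast at h2
        exact h2
      have h3 : ((k : ℚ) + 1) ≠ 0 := by positivity
      have e : (((k + 1 : ℕ) : ℤ)) = (k : ℤ) + 1 := by push_cast; ring
      rw [e]
      apply mul_left_cancel₀ h3
      push_cast at h1
      linear_combination (-1 : ℚ) * h1 - S q r f 0 * h2

theorem Inv.marg {p q r m : ℕ} {f : ℤ → ℤ → ℤ → ℚ} (h : Inv p q r m f) {a : ℕ} (ha : a ≤ p) :
    ∑ b ∈ range (q + 1), ∑ c ∈ range (r + 1),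
      f a b c * f a b c / ((p.choose a) * (q.choose b) * (r.choose c)) = S q r f 0 := by
  have h1 := h.S_eq ha
  have h2 : (p.choose a : ℚ) ≠ 0 := by exact_mod_cast (Nat.choose_pos ha).ne'
  have h3 : ∑ b ∈ range (q + 1), ∑ c ∈ range (r + 1),
      f a b c * f a b c / ((p.choose a) * (q.choose b) * (r.choose c)) = S q r f a / (p.choose a) := by
    unfold S
    rw [sum_div]
    refine sum_congr rfl fun b _ => ?_
    rw [sum_div]
    refine sum_congr rfl fun c _ => ?_
    rw [div_div]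
    congr 1
    ring
  rw [h3, h1]
  field_simp

/-- the coupling of three uniform laws with constant sum -/
theorem exists_w (α β γ : ℕ) : ∃ w : ℕ → ℕ → ℕ → ℝ,
    (∀ a b c, 0 ≤ w a b c) ∧ (∀ a b c, w a b c ≠ 0 → a + b + c = α + β + γ) ∧
    (∀ a, a ≤ β + γ → ∑ b ∈ range (α + γ + 1), ∑ c ∈ range (α + β + 1), w a b c
      = 1 / ((β + γ : ℕ) + 1)) ∧
    (∀ b, b ≤ α + γ → ∑ a ∈ range (β + γ + 1), ∑ c ∈ range (α + β + 1), w a b c
      = 1 / ((α + γ : ℕ) + 1)) ∧
    (∀ c, c ≤ α + β → ∑ a ∈ range (β + γ + 1), ∑ b ∈ range (α + γ + 1), w a b c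
      = 1 / ((α + β : ℕ) + 1)) := by
  obtain ⟨f, hf⟩ := exists_inv α β γ
  set p := β + γ with hp
  set q := α + γ with hq
  set r := α + β with hr
  set v : ℕ → ℕ → ℕ → ℚ := fun a b c =>
    f a b c * f a b c / ((p.choose a) * (q.choose b) * (r.choose c)) with hv
  have hv0 : ∀ a b c, 0 ≤ v a b c := fun a b c => by
    show 0 ≤ f a b c * f a b c / ((p.choose a) * (q.choose b) * (r.choose c))
    exact div_nonneg (mul_self_nonneg _) (by positivity)
  have hm1 : ∀ a, a ≤ p → ∑ b ∈ range (q + 1), ∑ c ∈ range (r + 1), v a b c = S q r f 0 :=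
    fun a ha => hf.marg ha
  have hm2 : ∀ b, b ≤ q → ∑ a ∈ range (p + 1), ∑ c ∈ range (r + 1), v a b c
      = S r p (fun b c a => f a b c) 0 := fun b hb => by
    rw [← hf.rot.marg hb, sum_comm]
    refine sum_congr rfl fun c _ => sum_congr rfl fun a _ => ?_
    show f a b c * f a b c / ((p.choose a) * (q.choose b) * (r.choose c)) = _
    congr 1
    ring
  have hm3 : ∀ c, c ≤ r → ∑ a ∈ range (p + 1), ∑ b ∈ range (q + 1), v a b c
      = S p q (fun c a b => f a b c) 0 := fun c hc => by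
    rw [← hf.rot.rot.marg hc]
    refine sum_congr rfl fun a _ => sum_congr rfl fun b _ => ?_
    show f a b c * f a b c / ((p.choose a) * (q.choose b) * (r.choose c)) = _
    congr 1
    ring
  set T : ℚ := ∑ a ∈ range (p + 1), ∑ b ∈ range (q + 1), ∑ c ∈ range (r + 1), v a b c with hT
  have hT1 : T = (p + 1) * S q r f 0 := by
    rw [hT, sum_congr rfl (fun a ha => hm1 a (by have := mem_range.1 ha; omega))]
    simp
  have hT2 : T = (q + 1) * S r p (fun b c a => f a b c) 0 := by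
    rw [hT, sum_comm, sum_congr rfl (fun b hb => hm2 b (by have := mem_range.1 hb; omega))]
    simp
  have hT3 : T = (r + 1) * S p q (fun c a b => f a b c) 0 := by
    have : T = ∑ c ∈ range (r + 1), ∑ a ∈ range (p + 1), ∑ b ∈ range (q + 1), v a b c := by
      rw [hT, sum_comm (s := range (r + 1))]
      refine sum_congr rfl fun a _ => ?_
      rw [sum_comm]
    rw [this, sum_congr rfl (fun c hc => hm3 c (by have := mem_range.1 hc; omega))]
    simp
  have hTpos : 0 < T := by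
    obtain ⟨a, b, c, hne⟩ := hf.ne
    obtain ⟨h1, h2, h3, h4, h5, h6, h7⟩ := hf.supp _ _ _ hne
    obtain ⟨a', rfl⟩ := Int.eq_ofNat_of_zero_le h1
    obtain ⟨b', rfl⟩ := Int.eq_ofNat_of_zero_le h3
    obtain ⟨c', rfl⟩ := Int.eq_ofNat_of_zero_le h5
    have h8 : 0 < v a' b' c' := by
      show 0 < f a' b' c' * f a' b' c' / ((p.choose a') * (q.choose b') * (r.choose c'))
      apply div_pos (mul_self_pos.2 hne)
      have e1 : 0 < p.choose a' := Nat.choose_pos (by omega)
      have e2 : 0 < q.choose b' := Nat.choose_pos (by omega)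
      have e3 : 0 < r.choose c' := Nat.choose_pos (by omega)
      positivity
    have h9 : v a' b' c' ≤ T := by
      calc v a' b' c' ≤ ∑ c ∈ range (r + 1), v a' b' c :=
            single_le_sum (f := fun c => v a' b' c) (fun c _ => hv0 _ _ _)
              (mem_range.2 (by omega))
        _ ≤ ∑ b ∈ range (q + 1), ∑ c ∈ range (r + 1), v a' b c :=
            single_le_sum (f := fun b => ∑ c ∈ range (r + 1), v a' b c)
              (fun b _ => sum_nonneg fun c _ => hv0 _ _ _) (mem_range.2 (by omega))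
        _ ≤ T := single_le_sum (f := fun a => ∑ b ∈ range (q + 1), ∑ c ∈ range (r + 1), v a b c)
              (fun a _ => sum_nonneg fun b _ => sum_nonneg fun c _ => hv0 _ _ _)
              (mem_range.2 (by omega))
    exact lt_of_lt_of_le h8 h9
  refine ⟨fun a b c => ((v a b c / T : ℚ) : ℝ), ?_, ?_, ?_, ?_, ?_⟩
  · intro a b c
    show (0 : ℝ) ≤ ((v a b c / T : ℚ) : ℝ)
    exact_mod_cast div_nonneg (hv0 a b c) hTpos.le
  · intro a b c hne
    have h1 : v a b c ≠ 0 := by
      intro h0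
      apply hne
      show ((v a b c / T : ℚ) : ℝ) = 0
      rw [h0]
      simp
    have h2 : f a b c ≠ 0 := by
      intro h0
      apply h1
      show f a b c * f a b c / ((p.choose a) * (q.choose b) * (r.choose c)) = 0
      rw [h0]
      simp
    have := (hf.supp _ _ _ h2).2.2.2.2.2.2
    omega
  · intro a ha
    have h1 : ∑ b ∈ range (q + 1), ∑ c ∈ range (r + 1), v a b c / T = 1 / ((p : ℚ) + 1) := by
      have : ∑ b ∈ range (q + 1), ∑ c ∈ range (r + 1), v a b c / T
          = (∑ b ∈ range (q + 1), ∑ c ∈ range (r + 1), v a b c) / T := by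
        rw [sum_div]
        exact sum_congr rfl fun b _ => (sum_div _ _ _).symm
      rw [this, hm1 a ha, div_eq_div_iff hTpos.ne' (by positivity), hT1]
      ring
    have h2 : ((∑ b ∈ range (q + 1), ∑ c ∈ range (r + 1), v a b c / T : ℚ) : ℝ)
        = ((1 / ((p : ℚ) + 1) : ℚ) : ℝ) := by rw [h1]
    push_cast at h2 ⊢
    exact h2
  · intro b hb
    have h1 : ∑ a ∈ range (p + 1), ∑ c ∈ range (r + 1), v a b c / T = 1 / ((q : ℚ) + 1) := by
      have : ∑ a ∈ range (p + 1), ∑ c ∈ range (r + 1), v a b c / T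
          = (∑ a ∈ range (p + 1), ∑ c ∈ range (r + 1), v a b c) / T := by
        rw [sum_div]
        exact sum_congr rfl fun b _ => (sum_div _ _ _).symm
      rw [this, hm2 b hb, div_eq_div_iff hTpos.ne' (by positivity), hT2]
      ring
    have h2 : ((∑ a ∈ range (p + 1), ∑ c ∈ range (r + 1), v a b c / T : ℚ) : ℝ)
        = ((1 / ((q : ℚ) + 1) : ℚ) : ℝ) := by rw [h1]
    push_cast at h2 ⊢
    exact h2
  · intro c hc
    have h1 : ∑ a ∈ range (p + 1), ∑ b ∈ range (q + 1), v a b c / T = 1 / ((r : ℚ) + 1) := by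
      have : ∑ a ∈ range (p + 1), ∑ b ∈ range (q + 1), v a b c / T
          = (∑ a ∈ range (p + 1), ∑ b ∈ range (q + 1), v a b c) / T := by
        rw [sum_div]
        exact sum_congr rfl fun b _ => (sum_div _ _ _).symm
      rw [this, hm3 c hc, div_eq_div_iff hTpos.ne' (by positivity), hT3]
      ring
    have h2 : ((∑ a ∈ range (p + 1), ∑ b ∈ range (q + 1), v a b c / T : ℚ) : ℝ)
        = ((1 / ((r : ℚ) + 1) : ℚ) : ℝ) := by rw [h1]
    push_cast at h2 ⊢
    exact h2

/-- inequality for the averages of three functions of one variable -/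
theorem uavg (α β γ : ℕ) (G1 G2 G3 : ℕ → ℝ) (κ : ℝ)
    (h : ∀ a b c, a ≤ β + γ → b ≤ α + γ → c ≤ α + β → a + b + c = α + β + γ →
      κ ≤ G1 a + G2 b + G3 c) :
    κ ≤ (∑ a ∈ range (β + γ + 1), G1 a) / ((β + γ : ℕ) + 1)
      + (∑ b ∈ range (α + γ + 1), G2 b) / ((α + γ : ℕ) + 1)
      + (∑ c ∈ range (α + β + 1), G3 c) / ((α + β : ℕ) + 1) := by
  obtain ⟨w, hw0, hws, hw1, hw2, hw3⟩ := exists_w α β γ
  set p := β + γ with hp
  set q := α + γ with hq
  set r := α + β with hr
  have e1 : ∑ a ∈ range (p + 1), ∑ b ∈ range (q + 1), ∑ c ∈ range (r + 1), w a b c * κ = κ := by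
    have : ∀ a ∈ range (p + 1), ∑ b ∈ range (q + 1), ∑ c ∈ range (r + 1), w a b c * κ
        = 1 / ((p : ℝ) + 1) * κ := fun a ha => by
      rw [← hw1 a (by have := mem_range.1 ha; omega), sum_mul]
      exact sum_congr rfl fun b _ => (sum_mul _ _ _).symm
    rw [sum_congr rfl this]
    simp
    field_simp
  have e2 : ∑ a ∈ range (p + 1), ∑ b ∈ range (q + 1), ∑ c ∈ range (r + 1), w a b c * G1 a
      = (∑ a ∈ range (p + 1), G1 a) / ((p : ℝ) + 1) := by
    rw [sum_div]
    refine sum_congr rfl fun a ha => ?_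
    rw [div_eq_mul_one_div, mul_comm, ← hw1 a (by have := mem_range.1 ha; omega), sum_mul]
    exact sum_congr rfl fun b _ => (sum_mul _ _ _).symm
  have e3 : ∑ a ∈ range (p + 1), ∑ b ∈ range (q + 1), ∑ c ∈ range (r + 1), w a b c * G2 b
      = (∑ b ∈ range (q + 1), G2 b) / ((q : ℝ) + 1) := by
    rw [sum_div, sum_comm]
    refine sum_congr rfl fun b hb => ?_
    rw [div_eq_mul_one_div, mul_comm, ← hw2 b (by have := mem_range.1 hb; omega), sum_mul]
    exact sum_congr rfl fun a _ => (sum_mul _ _ _).symm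
  have e4 : ∑ a ∈ range (p + 1), ∑ b ∈ range (q + 1), ∑ c ∈ range (r + 1), w a b c * G3 c
      = (∑ c ∈ range (r + 1), G3 c) / ((r : ℝ) + 1) := by
    have e5 : ∑ a ∈ range (p + 1), ∑ b ∈ range (q + 1), ∑ c ∈ range (r + 1), w a b c * G3 c
        = ∑ c ∈ range (r + 1), ∑ a ∈ range (p + 1), ∑ b ∈ range (q + 1), w a b c * G3 c := by
      rw [sum_comm (s := range (r + 1))]
      refine sum_congr rfl fun a _ => ?_
      rw [sum_comm]
    rw [e5, sum_div]
    refine sum_congr rfl fun c hc => ?_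
    rw [div_eq_mul_one_div, mul_comm, ← hw3 c (by have := mem_range.1 hc; omega), sum_mul]
    exact sum_congr rfl fun a _ => (sum_mul _ _ _).symm
  rw [← e2, ← e3, ← e4, ← sum_add_distrib, ← sum_add_distrib]
  conv_lhs => rw [← e1]
  refine sum_le_sum fun a ha => ?_
  rw [← sum_add_distrib, ← sum_add_distrib]
  refine sum_le_sum fun b hb => ?_
  rw [← sum_add_distrib, ← sum_add_distrib]
  refine sum_le_sum fun c hc => ?_
  rw [← mul_add, ← mul_add]
  by_cases h0 : w a b c = 0
  · rw [h0]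
    simp
  · exact mul_le_mul_of_nonneg_left
      (h a b c (by have := mem_range.1 ha; omega) (by have := mem_range.1 hb; omega)
        (by have := mem_range.1 hc; omega) (hws a b c h0)) (hw0 a b c)

/-- average over the values of the first coordinate of a two coordinate level -/
noncomputable def avg2 (M s : ℕ) (F : ℕ → ℝ) : ℝ :=
  (∑ t ∈ Icc (s - M) (min s M), F t) / ((Icc (s - M) (min s M)).card : ℝ)

theorem avg2_eq {M s : ℕ} (hs : s ≤ 2 * M) (F : ℕ → ℝ) :
    avg2 M s F = (∑ a ∈ range (min s M - (s - M) + 1), F (s - M + a))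
      / ((min s M - (s - M) : ℕ) + 1) := by
  unfold avg2
  have h1 : Icc (s - M) (min s M) = Ico (s - M) (min s M + 1) := by
    ext t
    simp only [mem_Icc, mem_Ico]
    omega
  have h2 : min s M + 1 - (s - M) = min s M - (s - M) + 1 := by omega
  rw [h1, sum_Ico_eq_sum_range, Nat.card_Ico, h2]
  push_cast
  rfl

theorem lp_cases (M s : ℕ) (hs : s ≤ 2 * M) : ∃ l p, s - M = l ∧ min s M - (s - M) = p ∧
    min s M = l + p ∧ l + l + p = s ∧ l + p ≤ M ∧ (l = 0 ∨ l + p = M) := by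
  rcases le_total s M with h | h
  · exact ⟨0, s, by omega, by omega, by omega, by omega, by omega, by omega⟩
  · exact ⟨s - M, 2 * M - s, by omega, by omega, by omega, by omega, by omega, by omega⟩

theorem li2 {M s1 s2 s3 : ℕ} (hs : s1 + s2 + s3 = 2 * M) (F1 F2 F3 : ℕ → ℝ) (κ : ℝ)
    (h : ∀ t1 t2 t3, t1 ∈ Icc (s1 - M) (min s1 M) → t2 ∈ Icc (s2 - M) (min s2 M) →
      t3 ∈ Icc (s3 - M) (min s3 M) → t1 + t2 + t3 = M → κ ≤ F1 t1 + F2 t2 + F3 t3) :
    κ ≤ avg2 M s1 F1 + avg2 M s2 F2 + avg2 M s3 F3 := by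
  rw [avg2_eq (by omega), avg2_eq (by omega), avg2_eq (by omega)]
  obtain ⟨l1, p1, a1, b1, c1, d1, e1, f1⟩ := lp_cases M s1 (by omega)
  obtain ⟨l2, p2, a2, b2, c2, d2, e2, f2⟩ := lp_cases M s2 (by omega)
  obtain ⟨l3, p3, a3, b3, c3, d3, e3, f3⟩ := lp_cases M s3 (by omega)
  rw [a1, c1] at h
  rw [a2, c2] at h
  rw [a3, c3] at h
  rw [b1, b2, b3, a1, a2, a3]
  have hm : ∃ α β γ, p1 = β + γ ∧ p2 = α + γ ∧ p3 = α + β ∧ l1 + l2 + l3 + (α + β + γ) = M := by
    rcases f1 with f1 | f1 <;> rcases f2 with f2 | f2 <;> rcases f3 with f3 | f3 <;>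
      exact ⟨M - l1 - l2 - l3 - p1, M - l1 - l2 - l3 - p2, M - l1 - l2 - l3 - p3,
        by omega, by omega, by omega, by omega⟩
  obtain ⟨α, β, γ, rfl, rfl, rfl, hm⟩ := hm
  refine uavg α β γ (fun a => F1 (l1 + a)) (fun a => F2 (l2 + a))
    (fun a => F3 (l3 + a)) κ fun a b c ha hb hc habc => ?_
  refine h _ _ _ ?_ ?_ ?_ ?_
  · rw [mem_Icc]
    omega
  · rw [mem_Icc]
    omega
  · rw [mem_Icc]
    omega
  · omega

end Pool.Agent.Work.MP_0cd883_co.Lev
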